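import Pool.Agent.SLN.Hard

set_option autoImplicit false

namespace Pool.Agent.Results.MP_97e695_lc.RecognitionNPHard

open Pool.Agent.CookLevin (NPHard)
open Pool.Agent.SLN (sltrRecognition)

/-- Deciding whether an internally 3-connected plane graph with three suspensions has a
straight-line triangle representation is NP-hard: every problem in NP reduces to it in polynomial
time. -/
theorem result : NPHard sltrRecognition := Pool.Agent.SLN.hard

end Pool.Agent.Results.MP_97e695_lc.RecognitionNPHard
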